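import Pool.Agent.Y234.GS.StmA

/-!
# Project GS: base change of Cech cocycles
-/

set_option autoImplicit false

namespace Pool.Agent.Y73.GS

open Pool.Agent.Y234.GS Module

/-! ### sections form a submodule -/

section sec

variable {ι K L : Type} [LinearOrder ι] [Field K] [Field L] [Algebra K L]

theorem prod_mem_pow {W : Submodule K L} {f : ι → L} (hf : ∀ i, f i ∈ W) (S : Finset ι) :
    ∏ i ∈ S, f i ∈ W ^ S.card := by
  induction S using Finset.induction_on with
  | empty => simp
  | insert a s ha ih =>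
    rw [Finset.prod_insert ha, Finset.card_insert_of_notMem ha, pow_succ']
    exact Submodule.mul_mem_mul (hf a) ih

theorem raise {W : Submodule K L} {f : ι → L} (hf : ∀ i, f i ∈ W) {m : ℤ} {S : Finset ι} {a : L}
    {N e : ℕ} (he : (e : ℤ) = m + N * S.card) (h : (∏ i ∈ S, f i) ^ N * a ∈ W ^ e) (t : ℕ) :
    (((e + t * S.card : ℕ)) : ℤ) = m + ((N + t : ℕ) : ℤ) * S.card ∧
      (∏ i ∈ S, f i) ^ (N + t) * a ∈ W ^ (e + t * S.card) := by
  refine ⟨by push_cast; rw [he]; ring, ?_⟩
  have h1 : (∏ i ∈ S, f i) ^ t ∈ W ^ (t * S.card) := by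
    rw [mul_comm t, pow_mul]
    exact Submodule.pow_mem_pow _ (prod_mem_pow hf S) t
  have h2 := Submodule.mul_mem_mul h h1
  rw [← pow_add] at h2
  have e1 : (∏ i ∈ S, f i) ^ (N + t) * a = (∏ i ∈ S, f i) ^ N * a * (∏ i ∈ S, f i) ^ t := by
    rw [pow_add]; ring
  rwa [e1]

/-- sections over a nonempty open set form a submodule -/
def SecM (W : Submodule K L) (f : ι → L) (hf : ∀ i, f i ∈ W) (m : ℤ) (S : Finset ι)
    (hS : S.Nonempty) : Submodule K L where
  carrier := Sec W f m S
  zero_mem' := by
    have h1 : 1 ≤ (S.card : ℤ) := by exact_mod_cast hS.card_pos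
    have h2 : 0 ≤ m + (m.natAbs : ℤ) * S.card := by
      have h3 : -m ≤ (m.natAbs : ℤ) := by omega
      nlinarith [Int.natCast_nonneg m.natAbs]
    refine ⟨m.natAbs, (m + (m.natAbs : ℤ) * S.card).toNat, Int.toNat_of_nonneg h2, ?_⟩
    rw [mul_zero]
    exact Submodule.zero_mem _
  add_mem' := by
    rintro a b ⟨N, e, he, ha⟩ ⟨N', e', he', hb⟩
    obtain ⟨h1, h2⟩ := raise hf he ha N'
    obtain ⟨h3, h4⟩ := raise hf he' hb N
    refine ⟨N + N', e + N' * S.card, h1, ?_⟩
    rw [mul_add]
    refine Submodule.add_mem _ h2 ?_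
    have e1 : e' + N * S.card = e + N' * S.card := by
      have : ((e' + N * S.card : ℕ) : ℤ) = ((e + N' * S.card : ℕ) : ℤ) := by
        rw [h1, h3, add_comm N N']
      exact_mod_cast this
    rw [e1, add_comm N' N] at h4
    exact h4
  smul_mem' := by
    rintro c a ⟨N, e, he, ha⟩
    refine ⟨N, e, he, ?_⟩
    rw [mul_smul_comm]
    exact Submodule.smul_mem _ c ha

end sec

/-! ### linear disjointness -/

section disj

variable {k k1 L L1 : Type} [Field k] [Field k1] [Field L] [Field L1] [Algebra k k1] [Algebra k L]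
    [Algebra k L1] [Algebra k1 L1] [Algebra L L1] [IsScalarTower k k1 L1] [IsScalarTower k L L1]

theorem disj_basis (h : Disj k k1 L L1) {Λ : Type} {v : Λ → L} (hv : LinearIndependent k v) :
    LinearIndependent k1 (fun l => algebraMap L L1 (v l)) := by
  classical
  rw [linearIndependent_iff_finset_linearIndependent]
  intro s
  have h1 := h s.card (fun i => v (s.equivFin.symm i).1)
    (hv.comp (fun i => (s.equivFin.symm i).1)
      (Subtype.val_injective.comp s.equivFin.symm.injective))
  exact (linearIndependent_equiv s.equivFin.symm).1 h1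

theorem disj_rev (h : Disj k k1 L L1) {B : Type} {e : B → k1} (he : LinearIndependent k e) :
    LinearIndependent L (fun β => algebraMap k1 L1 (e β)) := by
  classical
  rw [linearIndependent_iff']
  intro s f hf
  set v := Basis.ofVectorSpace k L with hv
  have hv1 := disj_basis h v.linearIndependent
  rw [linearIndependent_iff'] at hv1
  set t := s.biUnion (fun β => (v.repr (f β)).support) with ht
  have h1 : ∀ β ∈ s, f β = ∑ l ∈ t, v.repr (f β) l • v l := by
    intro β hβ
    conv_lhs => rw [← v.linearCombination_repr (f β), Finsupp.linearCombination_apply]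
    exact Finsupp.sum_of_support_subset _ (Finset.subset_biUnion_of_mem
      (fun β => (v.repr (f β)).support) hβ) _ (by simp)
  have h2 : ∑ l ∈ t, (∑ β ∈ s, v.repr (f β) l • e β) • algebraMap L L1 (v l) = 0 := by
    rw [← hf]
    simp_rw [Finset.sum_smul]
    rw [Finset.sum_comm]
    refine Finset.sum_congr rfl fun β hβ => ?_
    conv_rhs => rw [h1 β hβ]
    rw [Finset.sum_smul]
    refine Finset.sum_congr rfl fun l _ => ?_
    rw [Algebra.smul_def, Algebra.smul_def, Algebra.smul_def, Algebra.smul_def, map_mul, map_mul,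
      ← IsScalarTower.algebraMap_apply k k1 L1, ← IsScalarTower.algebraMap_apply k L L1]
    ring
  have h3 := hv1 t _ h2
  rw [linearIndependent_iff'] at he
  intro β hβ
  rw [h1 β hβ]
  refine Finset.sum_eq_zero fun l hl => ?_
  rw [he s _ (h3 l hl) β hβ, zero_smul]

variable (k k1 L L1) in
/-- the map from the coordinates -/
noncomputable def TT : (Basis.ofVectorSpaceIndex k k1 →₀ L) →ₗ[L] L1 :=
  Finsupp.linearCombination L (fun β => algebraMap k1 L1 (Basis.ofVectorSpace k k1 β))

theorem TT_inj (h : Disj k k1 L L1) : Function.Injective (TT k k1 L L1) :=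
  disj_rev h (Basis.ofVectorSpace k k1).linearIndependent

/-- the coordinates of `r • l` -/
noncomputable def FF (l : L) : k1 →ₗ[k] (Basis.ofVectorSpaceIndex k k1 →₀ L) :=
  (Finsupp.mapRange.linearMap (LinearMap.toSpanSingleton k L l)).comp
    (Basis.ofVectorSpace k k1).repr.toLinearMap

theorem FF_apply (l : L) (r : k1) (β : Basis.ofVectorSpaceIndex k k1) :
    FF (k := k) l r β = (Basis.ofVectorSpace k k1).repr r β • l := by
  simp [FF]

theorem FF_basis (l : L) (β : Basis.ofVectorSpaceIndex k k1) :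
    FF (k := k) (k1 := k1) l (Basis.ofVectorSpace k k1 β) = Finsupp.single β l := by
  classical
  ext β'
  rw [FF_apply, Basis.repr_self, Finsupp.single_apply, Finsupp.single_apply]
  split_ifs <;> simp

theorem TT_FF (l : L) (r : k1) : TT k k1 L L1 (FF l r) = r • algebraMap L L1 l := by
  have h : ((TT k k1 L L1).restrictScalars k).comp (FF (k := k) (k1 := k1) l) =
      ((LinearMap.toSpanSingleton k1 L1 (algebraMap L L1 l)).restrictScalars k) := by
    apply (Basis.ofVectorSpace k k1).ext
    intro β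
    change TT k k1 L L1 (FF l (Basis.ofVectorSpace k k1 β)) =
      Basis.ofVectorSpace k k1 β • algebraMap L L1 l
    rw [FF_basis]
    unfold TT
    rw [Finsupp.linearCombination_single, Algebra.smul_def, Algebra.smul_def, mul_comm]
  exact congrArg (fun g => g r) h

/-- a linear form on the coefficients, applied to the coordinates -/
noncomputable def Ph (φ : k1 →ₗ[k] k) : (Basis.ofVectorSpaceIndex k k1 →₀ L) →ₗ[k] L :=
  Finsupp.lsum k (fun β => φ (Basis.ofVectorSpace k k1 β) • (LinearMap.id : L →ₗ[k] L))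

theorem Ph_FF (φ : k1 →ₗ[k] k) (l : L) (r : k1) : Ph φ (FF l r) = φ r • l := by
  have h : (Ph (L := L) φ).comp (FF (k := k) (k1 := k1) l) =
      (LinearMap.toSpanSingleton k L l).comp φ := by
    apply (Basis.ofVectorSpace k k1).ext
    intro β
    change Ph φ (FF l (Basis.ofVectorSpace k k1 β)) = φ (Basis.ofVectorSpace k k1 β) • l
    rw [FF_basis]
    unfold Ph
    rw [Finsupp.lsum_single]
    rfl
  exact congrArg (fun g => g r) h

theorem Ph_mem (φ : k1 →ₗ[k] k) {M : Submodule k L}
    {f : Basis.ofVectorSpaceIndex k k1 →₀ L} (hf : ∀ β, f β ∈ M) : Ph φ f ∈ M := by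
  unfold Ph
  rw [Finsupp.lsum_apply, Finsupp.sum]
  refine Submodule.sum_mem _ fun β _ => ?_
  simp only [LinearMap.smul_apply, LinearMap.id_apply]
  exact M.smul_mem _ (hf β)

/-- elements of the span have coordinates in the submodule -/
theorem exists_coord (M : Submodule k L) {a : L1}
    (ha : a ∈ Submodule.span k1 (algebraMap L L1 '' (M : Set L))) :
    ∃ f : Basis.ofVectorSpaceIndex k k1 →₀ L, (∀ β, f β ∈ M) ∧ TT k k1 L L1 f = a := by
  induction ha using Submodule.closure_induction with
  | zero => exact ⟨0, fun β => by simp, map_zero _⟩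
  | add x y hx hy ihx ihy =>
    obtain ⟨f, hf, rfl⟩ := ihx
    obtain ⟨g, hg, rfl⟩ := ihy
    exact ⟨f + g, fun β => by
      rw [Finsupp.add_apply]
      exact M.add_mem (hf β) (hg β), map_add _ _ _⟩
  | smul_mem r x hx =>
    obtain ⟨l, hl, rfl⟩ := hx
    exact ⟨FF l r, fun β => by
      rw [FF_apply]
      exact M.smul_mem _ hl, TT_FF l r⟩

end disj

/-! ### the coboundary and additive maps -/

theorem dd_map {ι A B : Type} [LinearOrder ι] [AddCommGroup A] [AddCommGroup B] (φ : A →+ B)
    (c : Finset ι → A) (S : Finset ι) : φ (dd c S) = dd (fun S => φ (c S)) S := by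
  unfold dd
  rw [map_sum]
  exact Finset.sum_congr rfl fun i _ => map_zsmul φ _ _

theorem dd_congr {ι A : Type} [LinearOrder ι] [AddCommGroup A] {c c' : Finset ι → A}
    {S : Finset ι} {j : ℕ} (hS : S.card = j + 1) (h : ∀ T : Finset ι, T.card = j → c T = c' T) :
    dd c S = dd c' S := by
  unfold dd
  refine Finset.sum_congr rfl fun i hi => ?_
  rw [h]
  rw [Finset.card_erase_of_mem hi, hS, Nat.add_sub_cancel]

/-! ### sections after base change -/

section bc

variable {k k1 L L1 ι : Type} [Field k] [Field k1] [Field L] [Field L1] [Algebra k k1]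
    [Algebra k L] [Algebra k L1] [Algebra k1 L1] [Algebra L L1] [IsScalarTower k k1 L1]
    [IsScalarTower k L L1] [LinearOrder ι]

theorem VV_pow (x : ι → L) (e : ℕ) : (VV k1 (fun i => algebraMap L L1 (x i))) ^ e ≤
    Submodule.span k1 (algebraMap L L1 '' (((VV k x) ^ e : Submodule k L) : Set L)) := by
  unfold VV
  rw [Submodule.span_pow, Submodule.span_pow]
  apply Submodule.span_mono
  have h1 : Set.range (fun i => algebraMap L L1 (x i)) = algebraMap L L1 '' (Set.range x) := by
    rw [← Set.range_comp]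
    rfl
  rw [h1, ← Set.image_pow]
  exact Set.image_mono Submodule.subset_span

theorem sec_coord {x : ι → L} (hx : ∀ i, x i ≠ 0) {m : ℤ} {S : Finset ι} (hS : S.Nonempty)
    {a : L1} (ha : a ∈ Sec (VV k1 (fun i => algebraMap L L1 (x i)))
      (fun i => algebraMap L L1 (x i)) m S) :
    ∃ f : Basis.ofVectorSpaceIndex k k1 →₀ L, (∀ β, f β ∈ Sec (VV k x) x m S) ∧
      TT k k1 L L1 f = a := by
  obtain ⟨N, e, he, ha⟩ := ha
  obtain ⟨f, hf, hfa⟩ := exists_coord (k := k) _ (VV_pow (k := k) x e ha)
  set X : L := (∏ i ∈ S, x i) ^ N with hX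
  have hX0 : X ≠ 0 := pow_ne_zero _ (Finset.prod_ne_zero_iff.2 fun i _ => hx i)
  refine ⟨X⁻¹ • f, fun β => ⟨N, e, he, ?_⟩, ?_⟩
  · rw [Finsupp.smul_apply, smul_eq_mul, ← hX, mul_inv_cancel_left₀ hX0]
    exact hf β
  · rw [map_smul, hfa, Algebra.smul_def, map_inv₀, hX, map_pow, map_prod]
    rw [inv_mul_cancel_left₀]
    have := (map_ne_zero (algebraMap L L1)).2 hX0
    rwa [hX, map_pow, map_prod] at this

end bc

theorem bch : S_BCH := by
  intro k k1 L L1 ι _ _ _ _ _ _ _ _ _ _ _ _ _ x m j hD hx hj
  classical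
  have hxV : ∀ i, x i ∈ VV k x := fun i => Submodule.subset_span ⟨i, rfl⟩
  have hne : ∀ {S : Finset ι} {i : ℕ}, 1 ≤ i → S.card = i → S.Nonempty := fun h1 h2 =>
    Finset.card_pos.1 (by omega)
  refine ⟨fun c1 hc1 => ?_, fun hj2 n r c hr hc hb i => ?_⟩
  · -- coordinates
    have h1 : ∀ S : Finset ι, ∃ f : Basis.ofVectorSpaceIndex k k1 →₀ L, S.card = j →
        (∀ β, f β ∈ Sec (VV k x) x m S) ∧ TT k k1 L L1 f = c1 S := by
      intro S
      by_cases hS : S.card = j
      · obtain ⟨f, hf⟩ := sec_coord (k := k) hx (hne hj hS) (hc1.1 S hS)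
        exact ⟨f, fun _ => hf⟩
      · exact ⟨0, fun h => absurd h hS⟩
    choose g hg using h1
    have h2 : ∀ T : Finset ι, T.card = j + 1 → dd g T = 0 := by
      intro T hT
      apply TT_inj hD
      rw [map_zero]
      have h3 : TT k k1 L L1 (dd g T) = dd (fun S => TT k k1 L L1 (g S)) T :=
        dd_map (TT k k1 L L1).toAddMonoidHom g T
      rw [dd_congr hT (c' := c1) (fun S hS => (hg S hS).2), hc1.2 T hT] at h3
      exact h3
    set U : Finset (Basis.ofVectorSpaceIndex k k1) :=
      Finset.univ.biUnion (fun S : Finset ι => (g S).support) with hU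
    refine ⟨U.card, fun i => Basis.ofVectorSpace k k1 (U.equivFin.symm i).1,
      fun i S => g S (U.equivFin.symm i).1, ?_, fun i => ⟨fun S hS => (hg S hS).1 _, fun T hT => ?_⟩,
      fun S hS => ?_⟩
    · exact (Basis.ofVectorSpace k k1).linearIndependent.comp _
        (Subtype.val_injective.comp U.equivFin.symm.injective)
    · have h3 := dd_map (Finsupp.applyAddHom (U.equivFin.symm i).1) g T
      rw [h2 T hT, map_zero] at h3
      exact h3.symm
    · have h3 : TT k k1 L L1 (g S) = ∑ β ∈ U, Basis.ofVectorSpace k k1 β •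
          algebraMap L L1 (g S β) := by
        unfold TT
        rw [Finsupp.linearCombination_apply, Finsupp.sum_of_support_subset (s := U) _
          (Finset.subset_biUnion_of_mem (fun S : Finset ι => (g S).support) (Finset.mem_univ S))
          _ (by simp)]
        refine Finset.sum_congr rfl fun β _ => ?_
        rw [Algebra.smul_def, Algebra.smul_def, mul_comm]
      rw [← (hg S hS).2, h3, ← Finset.sum_coe_sort U, ← Equiv.sum_comp U.equivFin.symm]
  · obtain ⟨b1, hb1, hb2⟩ := hb
    have h1 : ∀ S : Finset ι, ∃ f : Basis.ofVectorSpaceIndex k k1 →₀ L, S.card = j - 1 →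
        (∀ β, f β ∈ Sec (VV k x) x m S) ∧ TT k k1 L L1 f = b1 S := by
      intro S
      by_cases hS : S.card = j - 1
      · obtain ⟨f, hf⟩ := sec_coord (k := k) hx (hne (by omega) hS) (hb1 S hS)
        exact ⟨f, fun _ => hf⟩
      · exact ⟨0, fun h => absurd h hS⟩
    choose g hg using h1
    -- the linear form
    obtain ⟨φ, hφ⟩ := LinearMap.exists_extend ((Finsupp.lapply i).comp hr.repr)
    have hφ1 : ∀ i' : Fin n, φ (r i') = if i' = i then 1 else 0 := by
      intro i'
      have h3 := congrArg (fun g => g ⟨r i', Submodule.subset_span ⟨i', rfl⟩⟩) hφ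
      simp only [LinearMap.comp_apply, Submodule.subtype_apply, Finsupp.lapply_apply] at h3
      rw [h3, hr.repr_eq_single i' _ rfl, Finsupp.single_apply]
    refine ⟨fun S => Ph φ (g S), fun S hS => ?_, fun S hS => ?_⟩
    · exact Ph_mem φ (M := SecM (VV k x) x hxV m S (hne (by omega) hS)) (hg S hS).1
    · have hS' : S.card = (j - 1) + 1 := by omega
      have h2 : dd g S = ∑ i', FF (c i' S) (r i') := by
        apply TT_inj hD
        rw [map_sum]
        simp_rw [TT_FF]
        have h3 : TT k k1 L L1 (dd g S) = dd (fun S => TT k k1 L L1 (g S)) S :=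
          dd_map (TT k k1 L L1).toAddMonoidHom g S
        rw [dd_congr hS' (c' := b1) (fun S hS => (hg S hS).2), ← hb2 S hS] at h3
        exact h3
      have h4 := dd_map (Ph (L := L) φ).toAddMonoidHom g S
      rw [h2] at h4
      change Ph φ (∑ i', FF (c i' S) (r i')) = dd (fun S => Ph φ (g S)) S at h4
      rw [← h4, map_sum]
      simp_rw [Ph_FF, hφ1]
      rw [Finset.sum_eq_single i]
      · rw [if_pos rfl, one_smul]
      · intro i' _ h5
        rw [if_neg h5, zero_smul]
      · intro h5
        exact absurd (Finset.mem_univ i) h5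

end Pool.Agent.Y73.GS
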