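import Pool.Agent.Y73.GS.Bch
import Pool.Agent.Y234.GS.StmB

/-!
# Project GS: generic linear forms give a finite separable extension
-/

set_option autoImplicit false

namespace Pool.Agent.Y73.GS

open Pool.Agent.Y234.GS Module

/-! ### the elements killed by a derivation -/

section der

variable {K L M : Type} [Field K] [Field L] [Algebra K L] [AddCommGroup M] [Module L M]
  [Module K M] [IsScalarTower K L M]

/-- the field of constants -/
def kerD (D : Derivation K L M) : IntermediateField K L where
  carrier := {a | D a = 0}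
  mul_mem' := by
    intro a b ha hb
    have ha' : D a = 0 := ha
    have hb' : D b = 0 := hb
    show D (a * b) = 0
    rw [D.leibniz, ha', hb', smul_zero, smul_zero, add_zero]
  add_mem' := by
    intro a b ha hb
    have ha' : D a = 0 := ha
    have hb' : D b = 0 := hb
    show D (a + b) = 0
    rw [map_add, ha', hb', add_zero]
  algebraMap_mem' := fun c => D.map_algebraMap c
  inv_mem' := by
    intro a ha
    have ha' : D a = 0 := ha
    show D a⁻¹ = 0
    rw [D.leibniz_inv, ha', smul_zero]

theorem mem_kerD {D : Derivation K L M} {a : L} : a ∈ kerD D ↔ D a = 0 := Iff.rfl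

theorem D_aeval (D : Derivation K L M) (Q : Polynomial (kerD D)) (α : L) :
    D (Polynomial.aeval α Q) = Polynomial.aeval α (Polynomial.derivative Q) • D α := by
  induction Q using Polynomial.induction_on' with
  | add p q hp hq => rw [map_add, map_add, hp, hq, map_add, map_add, add_smul]
  | monomial n a =>
    have ha : D (algebraMap (kerD D) L a) = 0 := a.2
    rw [Polynomial.aeval_monomial, Polynomial.derivative_monomial, Polynomial.aeval_monomial,
      D.leibniz, D.leibniz_pow, ha, smul_zero, add_zero, map_mul, map_natCast,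
      ← Nat.cast_smul_eq_nsmul L, smul_smul, smul_smul]

/-- derivations killing a family of generators vanish -/
theorem D_zero_of_adjoin (D : Derivation K L M) {s : Set L}
    (hs : IntermediateField.adjoin K s = ⊤) (h : ∀ a ∈ s, D a = 0) : D = 0 := by
  ext a
  have h1 : IntermediateField.adjoin K s ≤ kerD D := IntermediateField.adjoin_le_iff.2 h
  rw [hs] at h1
  exact h1 (IntermediateField.mem_top (x := a))

end der

/-- separable elements over a field of constants are constants -/
theorem D_sep {k k1 L L1 M : Type} [Field k] [Field k1] [Field L] [Field L1] [Algebra k L]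
    [Algebra k1 L1] [Algebra L L1] [AddCommGroup M] [Module L1 M] [Module k1 M]
    [IsScalarTower k1 L1 M] (D : Derivation k1 L1 M) (F : IntermediateField k L)
    (hF : ∀ a ∈ F, D (algebraMap L L1 a) = 0) {x : L} (hx : IsSeparable F x) :
    D (algebraMap L L1 x) = 0 := by
  let j : F →+* kerD D := ((algebraMap L L1).comp (algebraMap F L)).codRestrict (kerD D)
    (fun a => hF a a.2)
  have hj : (algebraMap (kerD D) L1).comp j = (algebraMap L L1).comp (algebraMap F L) := by
    ext a
    rfl
  have hev : ∀ P : Polynomial F, Polynomial.aeval (algebraMap L L1 x) (P.map j) =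
      algebraMap L L1 (Polynomial.aeval x P) := by
    intro P
    rw [Polynomial.aeval_def, Polynomial.eval₂_map, hj, Polynomial.aeval_def,
      Polynomial.hom_eval₂]
  have h1 := D_aeval D ((minpoly F x).map j) (algebraMap L L1 x)
  rw [Polynomial.derivative_map, hev, hev, minpoly.aeval, map_zero, map_zero] at h1
  have h2 : Polynomial.aeval x (Polynomial.derivative (minpoly F x)) ≠ 0 :=
    Polynomial.Separable.aeval_derivative_ne_zero hx (minpoly.aeval F x)
  have h3 : algebraMap L L1 (Polynomial.aeval x (Polynomial.derivative (minpoly F x))) ≠ 0 :=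
    (map_ne_zero _).2 h2
  exact (smul_eq_zero.1 h1.symm).resolve_left h3

/-! ### Kaehler differentials -/

section kae

variable {K L : Type} [Field K] [Field L] [Algebra K L]

open KaehlerDifferential

/-- families which detect derivations span the differentials -/
theorem span_top (s : Set L)
    (h : ∀ (M : Type) [AddCommGroup M] [Module L M] [Module K M] [IsScalarTower K L M]
      (D : Derivation K L M), (∀ a ∈ s, D a = 0) → D = 0) :
    Submodule.span L (KaehlerDifferential.D K L '' s) = ⊤ := by
  set N := Submodule.span L (KaehlerDifferential.D K L '' s) with hN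
  have h1 := h (Ω[L⁄K] ⧸ N) (N.mkQ.compDer (KaehlerDifferential.D K L)) (by
    intro a ha
    show N.mkQ (KaehlerDifferential.D K L a) = 0
    rw [Submodule.mkQ_apply, Submodule.Quotient.mk_eq_zero]
    exact Submodule.subset_span ⟨a, ha, rfl⟩)
  rw [eq_top_iff, ← KaehlerDifferential.span_range_derivation K L, Submodule.span_le]
  rintro _ ⟨a, rfl⟩
  have h2 := congrArg (fun D => D a) h1
  have h3 : N.mkQ (KaehlerDifferential.D K L a) = 0 := h2
  rwa [Submodule.mkQ_apply, Submodule.Quotient.mk_eq_zero] at h3

/-- if the differentials of `ψ` span, the extension is unramified over the field generated by `ψ` -/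
theorem unram {J : Type} (ψ : J → L)
    (h : Submodule.span L (Set.range fun l => KaehlerDifferential.D K L (ψ l)) = ⊤) :
    Algebra.FormallyUnramified (IntermediateField.adjoin K (Set.range ψ)) L := by
  set K' := IntermediateField.adjoin K (Set.range ψ) with hK'
  constructor
  set D' : Derivation K L (Ω[L⁄K']) := (KaehlerDifferential.D K' L).restrictScalars K with hD'
  have h1 : D'.liftKaehlerDifferential = 0 := by
    have h2 : ⊤ ≤ LinearMap.ker D'.liftKaehlerDifferential := by
      rw [← h, Submodule.span_le]
      rintro _ ⟨l, rfl⟩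
      show D'.liftKaehlerDifferential (KaehlerDifferential.D K L (ψ l)) = 0
      rw [Derivation.liftKaehlerDifferential_comp_D]
      have h3 : ψ l ∈ K' := IntermediateField.subset_adjoin _ _ ⟨l, rfl⟩
      exact (KaehlerDifferential.D K' L).map_algebraMap ⟨ψ l, h3⟩
    exact LinearMap.ker_eq_top.1 (top_le_iff.1 h2)
  have h4 : ∀ a : L, KaehlerDifferential.D K' L a = 0 := by
    intro a
    have h5 := Derivation.liftKaehlerDifferential_comp_D D' a
    rw [h1] at h5
    exact h5.symm
  have h6 : (⊤ : Submodule L (Ω[L⁄K'])) = ⊥ := by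
    rw [← KaehlerDifferential.span_range_derivation K' L, Submodule.span_eq_bot]
    rintro _ ⟨a, rfl⟩
    exact h4 a
  refine ⟨fun a b => ?_⟩
  have ha : a ∈ (⊤ : Submodule L (Ω[L⁄K'])) := trivial
  have hb : b ∈ (⊤ : Submodule L (Ω[L⁄K'])) := trivial
  rw [h6, Submodule.mem_bot] at ha hb
  rw [ha, hb]

end kae

/-! ### models -/

theorem adjoin_of_model {K L ι : Type} [Field K] [Field L] [Algebra K L] [Fintype ι] {x : ι → L}
    (h : Model K x) : IntermediateField.adjoin K (Set.range x) = ⊤ := by
  rw [eq_top_iff]
  intro a _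
  obtain ⟨G, H, hH, haG⟩ := h.gen a
  have hmem : ∀ P : MvPolynomial ι K, MvPolynomial.aeval x P ∈
      IntermediateField.adjoin K (Set.range x) := by
    intro P
    apply IntermediateField.algebra_adjoin_le_adjoin
    rw [Algebra.adjoin_range_eq_range_aeval]
    exact ⟨P, rfl⟩
  rw [eq_div_of_mul_eq hH haG]
  exact div_mem (hmem G) (hmem H)

theorem ess_of_model {K L ι : Type} [Field K] [Field L] [Algebra K L] [Fintype ι] {x : ι → L}
    (h : Model K x) : Algebra.EssFiniteType K L := by
  classical
  rw [← IntermediateField.fg_top_iff]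
  exact ⟨Finset.univ.image x, by simpa using adjoin_of_model h⟩

/-! ### algebraic independence after base change -/

theorem algInd_bc {k k1 L L1 : Type} [Field k] [Field k1] [Field L] [Field L1] [Algebra k k1]
    [Algebra k L] [Algebra k L1] [Algebra k1 L1] [Algebra L L1] [IsScalarTower k k1 L1]
    [IsScalarTower k L L1] (hD : Disj k k1 L L1) {J : Type} {s : J → L}
    (hs : AlgebraicIndependent k s) : AlgebraicIndependent k1 (fun j => algebraMap L L1 (s j)) := by
  classical
  have h1 : LinearIndependent k (fun m : J →₀ ℕ =>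
      MvPolynomial.aeval s (MvPolynomial.monomial m (1 : k))) := by
    have h2 := (MvPolynomial.basisMonomials J k).linearIndependent.map'
      (MvPolynomial.aeval s : MvPolynomial J k →ₐ[k] L).toLinearMap (by
        rw [LinearMap.ker_eq_bot]
        exact hs)
    exact h2
  have h3 := disj_basis (k1 := k1) (L1 := L1) hD h1
  have h4 : ∀ m : J →₀ ℕ, algebraMap L L1 (MvPolynomial.aeval s (MvPolynomial.monomial m (1 : k))) =
      MvPolynomial.aeval (fun j => algebraMap L L1 (s j)) (MvPolynomial.monomial m (1 : k1)) := by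
    intro m
    rw [MvPolynomial.aeval_monomial, MvPolynomial.aeval_monomial, map_one, map_one, one_mul,
      one_mul, Finsupp.prod, Finsupp.prod, map_prod]
    simp only [map_pow]
  simp only [h4] at h3
  rw [AlgebraicIndependent, injective_iff_map_eq_zero]
  intro P hP
  have h5 : MvPolynomial.aeval (fun j => algebraMap L L1 (s j)) P =
      ∑ m ∈ P.support, P.coeff m • MvPolynomial.aeval (fun j => algebraMap L L1 (s j))
        (MvPolynomial.monomial m (1 : k1)) := by
    conv_lhs => rw [P.as_sum]
    rw [map_sum]
    refine Finset.sum_congr rfl fun m _ => ?_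
    rw [← map_smul, MvPolynomial.smul_monomial, smul_eq_mul, mul_one]
  rw [h5] at hP
  rw [linearIndependent_iff'] at h3
  have h6 := h3 P.support (fun m => P.coeff m) hP
  ext m
  rw [MvPolynomial.coeff_zero]
  by_cases hm : m ∈ P.support
  · exact h6 m hm
  · exact MvPolynomial.notMem_support_iff.1 hm

/-! ### polynomials over an extension -/

theorem exists_form {k L1 σ : Type} [Field k] [Field L1] [Algebra k L1] (F : MvPolynomial σ L1)
    (hF : F ≠ 0) : ∃ Φ : MvPolynomial σ k, Φ ≠ 0 ∧ ∀ v : σ → k, MvPolynomial.eval v Φ ≠ 0 →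
      MvPolynomial.eval (fun i => algebraMap k L1 (v i)) F ≠ 0 := by
  classical
  obtain ⟨m0, hm0⟩ := MvPolynomial.ne_zero_iff.1 hF
  obtain ⟨lam, hlam⟩ : ∃ lam : L1 →ₗ[k] k, lam (F.coeff m0) ≠ 0 := by
    by_contra hcon
    push Not at hcon
    exact hm0 ((Module.forall_dual_apply_eq_zero_iff k _).1 hcon)
  set Φ : MvPolynomial σ k := ∑ m ∈ F.support, MvPolynomial.monomial m (lam (F.coeff m)) with hΦ
  refine ⟨Φ, ?_, fun v hv hcon => hv ?_⟩
  · rw [MvPolynomial.ne_zero_iff]
    refine ⟨m0, ?_⟩
    rw [hΦ, MvPolynomial.coeff_sum]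
    simp only [MvPolynomial.coeff_monomial]
    rw [Finset.sum_ite_eq' F.support m0, if_pos (MvPolynomial.mem_support_iff.2 hm0)]
    exact hlam
  · have h1 : lam (MvPolynomial.eval (fun i => algebraMap k L1 (v i)) F) =
        MvPolynomial.eval v Φ := by
      rw [MvPolynomial.eval_eq, map_sum, hΦ, map_sum]
      refine Finset.sum_congr rfl fun m _ => ?_
      rw [MvPolynomial.eval_monomial, Finsupp.prod]
      have h2 : F.coeff m * ∏ i ∈ m.support, algebraMap k L1 (v i) ^ m i =
          (∏ i ∈ m.support, v i ^ m i) • F.coeff m := by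
        rw [Algebra.smul_def, map_prod, mul_comm]
        simp only [map_pow]
      rw [h2, map_smul, smul_eq_mul, mul_comm]
    rw [← h1, hcon, map_zero]

theorem algInd_of_algebraic {K L : Type} [Field K] [Field L] [Algebra K L] {D : ℕ}
    (ψ : Fin D → L) [Algebra.IsAlgebraic (IntermediateField.adjoin K (Set.range ψ)) L]
    (h : (D : Cardinal) ≤ Algebra.trdeg K L) : AlgebraicIndependent K ψ := by
  classical
  have h0 : Algebra.IsAlgebraic (Algebra.adjoin K (Set.range ψ)) L :=
    IntermediateField.isAlgebraic_adjoin_iff_top.1 inferInstance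
  obtain ⟨t, ht, htb⟩ := exists_isTranscendenceBasis_subset (R := K) (Set.range ψ)
  have hfin : (Set.range ψ).Finite := Set.finite_range ψ
  have htf : t.Finite := hfin.subset ht
  have h1 := htb.cardinalMk_eq_trdeg
  rw [← h1, ← Set.cast_ncard htf, Nat.cast_le] at h
  have h3 : (Set.range ψ).ncard ≤ D := by
    rw [← Set.image_univ, ← Finset.coe_univ, ← Finset.coe_image, Set.ncard_coe_finset]
    exact Finset.card_image_le.trans (by simp)
  have h4 : t = Set.range ψ := Set.eq_of_subset_of_ncard_le ht (h3.trans h) hfin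
  have h5 : Function.Injective ψ := by
    have h6 : (Finset.univ.image ψ).card = (Finset.univ : Finset (Fin D)).card := by
      rw [h4, ← Set.image_univ, ← Finset.coe_univ, ← Finset.coe_image, Set.ncard_coe_finset] at h
      refine le_antisymm Finset.card_image_le ?_
      simpa using h
    exact fun a b hab => Finset.card_image_iff.1 h6 (Finset.mem_coe.2 (Finset.mem_univ a))
      (Finset.mem_coe.2 (Finset.mem_univ b)) hab
  rw [h4] at htb
  exact (algebraicIndependent_subtype_range h5).1 htb.1

/-! ### the theorem -/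

theorem psi2 : S_PSI2 := by
  intro k k1 L L1 ι _ _ _ _ _ _ _ _ _ _ _ _ _ x u D hDisj hM hM1 hu htr
  classical
  have hA := adjoin_of_model hM
  have hA1 := adjoin_of_model hM1
  have hE := ess_of_model hM
  have hE1 := ess_of_model hM1
  obtain ⟨s, hs, hsep⟩ := exists_isTranscendenceBasis_and_isSeparable_of_perfectField
    (k := k) (K := L)
  have hcard : s.card = D := by
    have h1 := hs.cardinalMk_eq_trdeg
    rw [htr, Cardinal.mk_coe_finset] at h1
    exact_mod_cast h1
  set X : ι → L1 := fun i => algebraMap L L1 (x i) with hX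
  obtain ⟨y, hy⟩ : ∃ y : ι → L1, ∀ i, y i = u i • X i := ⟨_, fun _ => rfl⟩
  have hyX : ∀ i, (u i)⁻¹ • y i = X i := fun i => by
    rw [hy, smul_smul, inv_mul_cancel₀ (hu i), one_smul]
  -- the differentials of the `y i` span
  have hspan : Submodule.span L1 (KaehlerDifferential.D k1 L1 '' Set.range y) = ⊤ := by
    refine span_top _ fun M _ _ _ _ D' h => D_zero_of_adjoin D' hA1 ?_
    rintro _ ⟨i, rfl⟩
    have h1 : D' (X i) = 0 := by
      rw [← hyX i, D'.map_smul, h _ ⟨i, rfl⟩, smul_zero]
    exact h1
  have hspan' : Submodule.span L1 (Set.range fun i => KaehlerDifferential.D k1 L1 (y i)) = ⊤ := by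
    rw [← hspan, ← Set.range_comp]
    rfl
  -- the differentials of the transcendence basis span
  have hspan2 : Submodule.span L1 (KaehlerDifferential.D k1 L1 ''
      (Set.range fun a : s => algebraMap L L1 a)) = ⊤ := by
    refine span_top _ fun M _ _ _ _ D' h => D_zero_of_adjoin D' hA1 ?_
    rintro _ ⟨i, rfl⟩
    refine D_sep D' (IntermediateField.adjoin k (s : Set L)) ?_ (hsep.isSeparable' (x i))
    intro a ha
    let E : IntermediateField k L :=
      ((kerD D').toSubfield.comap (algebraMap L L1)).toIntermediateField (fun c => by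
          show D' (algebraMap L L1 (algebraMap k L c)) = 0
          rw [← IsScalarTower.algebraMap_apply k L L1, IsScalarTower.algebraMap_apply k k1 L1]
          exact D'.map_algebraMap _)
    have h1 : IntermediateField.adjoin k (s : Set L) ≤ E := by
      rw [IntermediateField.adjoin_le_iff]
      intro b hb
      exact h _ ⟨⟨b, hb⟩, rfl⟩
    exact h1 ha
  have hspan3 : Submodule.span L1 (Set.range fun a : s =>
      KaehlerDifferential.D k1 L1 (algebraMap L L1 a)) = ⊤ := by
    rw [← hspan2, ← Set.range_comp]
    rfl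
  have hfin : Module.Finite L1 (Ω[L1⁄k1]) := by
    rw [Module.finite_def, Submodule.fg_def]
    exact ⟨_, Set.finite_range _, hspan'⟩
  set r := Module.finrank L1 (Ω[L1⁄k1]) with hr
  let b : Basis (Fin r) L1 (Ω[L1⁄k1]) := Module.finBasis L1 (Ω[L1⁄k1])
  have hrD : r ≤ D := by
    rw [← hcard]
    have h1 := finrank_range_le_card (R := L1)
      (fun a : s => KaehlerDifferential.D k1 L1 (algebraMap L L1 a))
    rw [Set.finrank, hspan3, finrank_top, Fintype.card_coe] at h1
    exact h1
  -- a basis from the `y i`
  obtain ⟨B, hBt, hBspan, hBind⟩ := exists_linearIndependent L1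
    (Set.range fun i => KaehlerDifferential.D k1 L1 (y i))
  let bB : Basis B L1 (Ω[L1⁄k1]) := Basis.mk hBind (by rw [Subtype.range_coe, hBspan, hspan'])
  let e := b.indexEquiv bB
  have h3 : ∀ l : Fin r, ∃ i, KaehlerDifferential.D k1 L1 (y i) = (e l : Ω[L1⁄k1]) :=
    fun l => hBt (e l).2
  choose f hf using h3
  have h4 : IsUnit (b.det fun l => KaehlerDifferential.D k1 L1 (y (f l))) := by
    have h5 := b.isUnit_det (bB.reindex e.symm)
    have h6 : (fun l => KaehlerDifferential.D k1 L1 (y (f l))) = (bB.reindex e.symm) := by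
      funext l
      rw [hf, Basis.reindex_apply, Equiv.symm_symm, Basis.mk_apply]
    rw [h6]
    exact h5
  -- the determinant
  set F : MvPolynomial (Fin D × ι) L1 := (Matrix.of fun j l : Fin r => ∑ i,
    MvPolynomial.C (b.repr (KaehlerDifferential.D k1 L1 (y i)) j) *
      MvPolynomial.X (Fin.castLE hrD l, i)).det with hF
  have hFev : ∀ v : Fin D × ι → L1, MvPolynomial.eval v F =
      b.det (fun l : Fin r => ∑ i, v (Fin.castLE hrD l, i) • KaehlerDifferential.D k1 L1 (y i)) := by
    intro v
    rw [hF, RingHom.map_det, Basis.det_apply]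
    congr 1
    ext j l
    rw [RingHom.mapMatrix_apply, Matrix.map_apply, Matrix.of_apply, Basis.toMatrix_apply, map_sum,
      map_sum, Finsupp.finsetSum_apply]
    refine Finset.sum_congr rfl fun i _ => ?_
    rw [map_mul, MvPolynomial.eval_C, MvPolynomial.eval_X, map_smul, Finsupp.smul_apply,
      smul_eq_mul, mul_comm]
  have hF0 : F ≠ 0 := by
    intro hF0
    have h5 := hFev (fun z => if h : z.1.1 < r then (if z.2 = f ⟨z.1.1, h⟩ then 1 else 0) else 0)
    rw [hF0, map_zero] at h5
    have h6 : (fun l : Fin r => ∑ i, (if h : (Fin.castLE hrD l).1 < r then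
        (if i = f ⟨(Fin.castLE hrD l).1, h⟩ then (1 : L1) else 0) else 0) •
          KaehlerDifferential.D k1 L1 (y i)) = fun l => KaehlerDifferential.D k1 L1 (y (f l)) := by
      funext l
      rw [Finset.sum_eq_single (f l)]
      · rw [dif_pos (show (Fin.castLE hrD l).1 < r from l.2)]
        show (if f l = f l then (1 : L1) else 0) • KaehlerDifferential.D k1 L1 (y (f l)) = _
        rw [if_pos rfl, one_smul]
      · intro i _ hi
        rw [dif_pos (show (Fin.castLE hrD l).1 < r from l.2)]
        show (if i = f l then (1 : L1) else 0) • KaehlerDifferential.D k1 L1 (y i) = _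
        rw [if_neg hi, zero_smul]
      · intro hi
        exact absurd (Finset.mem_univ _) hi
    rw [h6] at h5
    exact h4.ne_zero h5.symm
  obtain ⟨Φ, hΦ0, hΦ⟩ := exists_form (k := k) F hF0
  refine ⟨Φ, hΦ0, fun v hv => ?_⟩
  set ψ : Fin D → L1 := fun l => ∑ i, v (l, i) • (u i • algebraMap L L1 (x i)) with hψ
  have hDψ : ∀ l, KaehlerDifferential.D k1 L1 (ψ l) =
      ∑ i, algebraMap k L1 (v (l, i)) • KaehlerDifferential.D k1 L1 (y i) := by
    intro l
    have h5 : ψ l = ∑ i, v (l, i) • y i := Finset.sum_congr rfl fun i _ => by rw [hy]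
    rw [h5, map_sum]
    refine Finset.sum_congr rfl fun i _ => ?_
    rw [← algebraMap_smul k1 (v (l, i)) (y i), Derivation.map_smul,
      ← algebraMap_smul L1 (algebraMap k k1 (v (l, i))), ← IsScalarTower.algebraMap_apply k k1 L1]
  have h7 : Submodule.span L1 (Set.range fun l => KaehlerDifferential.D k1 L1 (ψ l)) = ⊤ := by
    have h8 := hΦ v hv
    rw [hFev] at h8
    have h9 := ((Module.Basis.is_basis_iff_det b).2 (isUnit_iff_ne_zero.2 h8)).2
    rw [eq_top_iff, ← h9]
    apply Submodule.span_mono
    rintro _ ⟨l, rfl⟩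
    exact ⟨Fin.castLE hrD l, hDψ _⟩
  have h10 := unram ψ h7
  have h11 : Algebra.EssFiniteType (IntermediateField.adjoin k1 (Set.range ψ)) L1 :=
    Algebra.EssFiniteType.of_comp k1 _ L1
  have h12 : Module.Finite (IntermediateField.adjoin k1 (Set.range ψ)) L1 :=
    Algebra.FormallyUnramified.finite_of_free _ _
  have h13 : Algebra.IsSeparable (IntermediateField.adjoin k1 (Set.range ψ)) L1 :=
    Algebra.FormallyUnramified.isSeparable _ _
  refine ⟨algInd_of_algebraic ψ ?_, h12, h13⟩
  have h14 := (algInd_bc (k1 := k1) (L1 := L1) hDisj hs.1).cardinalMk_le_trdeg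
  rw [Cardinal.mk_coe_finset, hcard] at h14
  exact h14

end Pool.Agent.Y73.GS
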